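import Mathlib
import Pool.Agent.Helper92.UQ.Goals

/-! Packet T3-DERG (MP_a41896_nt). -/

set_option autoImplicit false

open MvPolynomial

namespace Pool.Agent.Helper81.UQ.DERG

open Pool.Agent.Helper92.UQ

noncomputable section

section

variable {K : Type} [Field K] {σ : Type} [DecidableEq σ] {F : Type} [Field F]
  [Algebra K F]

/-- the chain rule -/
theorem chain [Fintype σ] (D : Derivation K F F) (x : σ → F) (p : MvPolynomial σ K) :
    D (aeval x p) = ∑ k, aeval x (pderiv k p) * D (x k) := by
  induction p using MvPolynomial.induction_on with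
  | C a => simp
  | add p q hp hq =>
    simp only [map_add, hp, hq, add_mul, Finset.sum_add_distrib]
  | mul_X p i hp =>
    have h1 : ∀ k, aeval x (pderiv k (p * X i)) * D (x k) =
        x i * (aeval x (pderiv k p) * D (x k)) + (if k = i then aeval x p * D (x k) else 0) := by
      intro k
      rw [Derivation.leibniz]
      simp only [smul_eq_mul, map_add, map_mul, aeval_X]
      by_cases hk : k = i
      · subst hk
        rw [pderiv_X_self, map_one, if_pos rfl]
        ring
      · rw [pderiv_X_of_ne (Ne.symm hk), map_zero, if_neg hk]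
        ring
    rw [Finset.sum_congr rfl fun k _ => h1 k, Finset.sum_add_distrib, ← Finset.mul_sum, ← hp,
      Finset.sum_ite_eq' Finset.univ i, if_pos (Finset.mem_univ i)]
    simp only [map_mul, aeval_X, Derivation.leibniz, smul_eq_mul]
    ring

/-- the coordinates different from `i1` are algebraically independent -/
theorem indep {h : MvPolynomial σ K} {i1 : σ} {x : σ → F}
    (ker : ∀ p : MvPolynomial σ K, aeval x p = 0 ↔ h ∣ p) (ne : aeval x (pderiv i1 h) ≠ 0) :
    AlgebraicIndependent K (fun k : {k : σ // k ≠ i1} => x k) := by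
  have hv : i1 ∈ h.vars := by
    by_contra hc
    exact ne (by rw [pderiv_eq_zero_of_notMem_vars hc, map_zero])
  have hd : h.degreeOf i1 ≠ 0 := mem_vars_iff_degreeOf_ne_zero.1 hv
  rw [algebraicIndependent_iff]
  intro p hp
  have h1 : aeval x (rename (Subtype.val : {k : σ // k ≠ i1} → σ) p) = 0 := by
    rw [aeval_rename]
    exact hp
  obtain ⟨g, hg⟩ := (ker _).1 h1
  have h2 : i1 ∉ (rename (Subtype.val : {k : σ // k ≠ i1} → σ) p).vars := by
    intro hm
    obtain ⟨k, -, hk⟩ := mem_vars_rename _ _ hm
    exact k.2 hk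
  have h3 : (rename (Subtype.val : {k : σ // k ≠ i1} → σ) p).degreeOf i1 = 0 := by
    by_contra hc
    exact h2 (mem_vars_iff_degreeOf_ne_zero.2 hc)
  have h4 : rename (Subtype.val : {k : σ // k ≠ i1} → σ) p = 0 := by
    by_contra hc
    have hh : h ≠ 0 := by
      rintro rfl
      rw [zero_mul] at hg
      exact hc hg
    have hg0 : g ≠ 0 := by
      rintro rfl
      rw [mul_zero] at hg
      exact hc hg
    rw [hg, degreeOf_mul_eq hh hg0] at h3
    omega
  exact rename_injective _ Subtype.val_injective (by rw [h4, map_zero])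

/-- `x i1` is algebraic over the other coordinates -/
theorem alg1 {h : MvPolynomial σ K} {i1 : σ} {x : σ → F}
    (ker : ∀ p : MvPolynomial σ K, aeval x p = 0 ↔ h ∣ p) (ne : aeval x (pderiv i1 h) ≠ 0) :
    IsAlgebraic (Algebra.adjoin K (Set.range fun k : {k : σ // k ≠ i1} => x k)) (x i1) := by
  set A := Algebra.adjoin K (Set.range fun k : {k : σ // k ≠ i1} => x k) with hA
  have hx : ∀ k, k ≠ i1 → x k ∈ A := fun k hk => Algebra.subset_adjoin ⟨⟨k, hk⟩, rfl⟩
  obtain ⟨c, hc⟩ : ∃ c : σ → Polynomial A, c = fun k =>
      if hk : k = i1 then Polynomial.X else Polynomial.C ⟨x k, hx k hk⟩ := ⟨_, rfl⟩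
  have hc1 : c i1 = Polynomial.X := by rw [hc]; simp
  have hc2 : ∀ k (hk : k ≠ i1), c k = Polynomial.C ⟨x k, hx k hk⟩ := by
    intro k hk
    rw [hc]
    simp only [dif_neg hk]
  have e1 : ∀ p : MvPolynomial σ K, Polynomial.aeval (x i1) (aeval c p) = aeval x p := by
    intro p
    have e : ((Polynomial.aeval (x i1) : Polynomial A →ₐ[A] F).restrictScalars K).comp
        (aeval c : MvPolynomial σ K →ₐ[K] Polynomial A) = aeval x := by
      apply MvPolynomial.algHom_ext
      intro k
      rw [AlgHom.comp_apply, AlgHom.restrictScalars_apply, aeval_X, aeval_X]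
      by_cases hk : k = i1
      · rw [hk, hc1, Polynomial.aeval_X]
      · rw [hc2 k hk, Polynomial.aeval_C]
        rfl
    have := congrArg (fun f => f p) e
    simpa only [AlgHom.comp_apply, AlgHom.restrictScalars_apply] using this
  have e2 : ∀ p : MvPolynomial σ K, Polynomial.derivative (aeval c p) = aeval c (pderiv i1 p) := by
    intro p
    induction p using MvPolynomial.induction_on with
    | C a =>
      rw [aeval_C, pderiv_C, map_zero]
      rw [IsScalarTower.algebraMap_apply K A (Polynomial A)]
      exact Polynomial.derivative_C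
    | add p q hp hq => simp only [map_add, hp, hq]
    | mul_X p i hp =>
      rw [map_mul, Polynomial.derivative_mul, hp, Derivation.leibniz]
      simp only [smul_eq_mul, map_add, map_mul, aeval_X]
      by_cases hk : i = i1
      · rw [hk, hc1, pderiv_X_self, Polynomial.derivative_X, map_one]
        ring
      · rw [pderiv_X_of_ne hk, hc2 i hk, Polynomial.derivative_C, map_zero]
        ring
  refine ⟨aeval c h, ?_, ?_⟩
  · intro h0
    apply ne
    rw [← e1, ← e2, h0, Polynomial.derivative_zero, map_zero]
  · rw [e1]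
    exact (ker h).2 dvd_rfl

/-- the transcendence basis -/
theorem basis {h : MvPolynomial σ K} {i1 : σ} {x : σ → F}
    (ker : ∀ p : MvPolynomial σ K, aeval x p = 0 ↔ h ∣ p) (ne : aeval x (pderiv i1 h) ≠ 0)
    (alg : Algebra.IsAlgebraic (IntermediateField.adjoin K (Set.range x)) F) :
    IsTranscendenceBasis K (fun k : {k : σ // k ≠ i1} => x k) := by
  rw [(indep ker ne).isTranscendenceBasis_iff_isAlgebraic]
  have h1 : Algebra.IsAlgebraic (Algebra.adjoin K (Set.range x)) F :=
    IntermediateField.isAlgebraic_adjoin_iff_top.1 alg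
  refine ⟨fun z => (h1.isAlgebraic z).adjoin_of_forall_isAlgebraic ?_⟩
  rintro _ ⟨⟨k, rfl⟩, hk⟩
  have hk1 : k = i1 := by
    by_contra hc
    exact hk ⟨⟨k, hc⟩, rfl⟩
  rw [hk1]
  exact alg1 ker ne

end

theorem t (hDERF : DERF) : Pool.Agent.Helper92.UQ.DERG := by
  intro K _ _ σ _ _ B n h i1 F _ _ x ψ r hn G a
  classical
  have : CharZero F := charZero_of_injective_algebraMap (algebraMap K F).injective
  obtain ⟨D, hD⟩ := hDERF K F {k : σ // k ≠ i1} (fun k => x k)
    (fun k => algebraMap K F (a k) * ψ k) (basis G.ker G.ne G.alg)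
  have hDx : ∀ k, k ≠ i1 → D (x k) = algebraMap K F (a k) * ψ k := fun k hk => hD ⟨k, hk⟩
  have hx1 : D (x i1) =
      (- ∑ k ∈ Finset.univ.erase i1, algebraMap K F (a k) * r k) * ψ i1 := by
    have h0 : (0 : F) = ∑ k, aeval x (pderiv k h) * D (x k) := by
      rw [← chain D x h, (G.ker h).2 dvd_rfl, map_zero]
    rw [← Finset.add_sum_erase _ _ (Finset.mem_univ i1)] at h0
    have h1 : ∑ k ∈ Finset.univ.erase i1, aeval x (pderiv k h) * D (x k) =
        (∑ k ∈ Finset.univ.erase i1, algebraMap K F (a k) * r k) *
          (ψ i1 * aeval x (pderiv i1 h)) := by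
      rw [Finset.sum_mul]
      refine Finset.sum_congr rfl fun k hk => ?_
      rw [hDx k (Finset.ne_of_mem_erase hk)]
      have h2 := G.nor k
      calc aeval x (pderiv k h) * (algebraMap K F (a k) * ψ k) =
          algebraMap K F (a k) * (ψ k * aeval x (pderiv k h)) := by ring
        _ = _ := by rw [h2]; ring
    rw [h1] at h0
    apply mul_left_cancel₀ G.ne
    linear_combination -h0
  refine ⟨D, fun k => if k = i1 then
      - ∑ k ∈ Finset.univ.erase i1, algebraMap K F (a k) * r k else algebraMap K F (a k),
    fun k hk => if_neg hk, if_pos rfl, ?_, ?_, ?_⟩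
  · intro k
    beta_reduce
    by_cases hk : k = i1
    · subst hk
      rw [if_pos rfl, hx1]
    · rw [if_neg hk, hDx k hk]
  · intro k
    have h1 := congrArg D (G.slo k)
    rw [Derivation.map_algebraMap, Derivation.leibniz, Derivation.map_algebraMap, smul_zero,
      add_zero, sq, Derivation.leibniz, smul_eq_mul, smul_eq_mul] at h1
    have hn' : algebraMap K F (n i1) ≠ 0 := by
      rwa [Ne, FaithfulSMul.algebraMap_eq_zero_iff]
    have h2 : r k * D (r k) = 0 := by
      rcases mul_eq_zero.1 h1 with h3 | h3
      · exact absurd h3 hn'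
      · have h4 : (2 : F) * (r k * D (r k)) = 0 := by linear_combination h3
        rcases mul_eq_zero.1 h4 with h5 | h5
        · exact absurd h5 two_ne_zero
        · exact h5
    rcases mul_eq_zero.1 h2 with h3 | h3
    · rw [h3, map_zero]
    · exact h3
  · intro k
    have h1 := congrArg D (G.sq k)
    rw [sq, Derivation.leibniz, Derivation.map_aeval, smul_eq_mul, smul_eq_mul] at h1
    have hDk : D (x k) = (if k = i1 then
        - ∑ k ∈ Finset.univ.erase i1, algebraMap K F (a k) * r k else algebraMap K F (a k)) *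
          ψ k := by
      by_cases hk : k = i1
      · subst hk
        rw [if_pos rfl, hx1]
      · rw [if_neg hk, hDx k hk]
    rw [hDk] at h1
    apply mul_left_cancel₀ (G.psi k)
    linear_combination h1

end

end Pool.Agent.Helper81.UQ.DERG
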